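import Pool.Agent.D2L.FinalD

/-!
# Deligne's conjecture for the twists of an elliptic curve by all Artin representations of the Galois
groups of towers of silent extensions
-/

namespace Pool.Agent.Results.MP_cd171c_nt.EllipticArtin

open NumberField Polynomial D2L Pool.Agent.DeligneH3 Pool.Agent.D2M

/-- Let `E` be the elliptic curve `y² = x³ + 16` (or `y² + y = x³`) over `ℚ`, of conductor 27. There
are integers `N(K) ≠ 0`, for all number fields `K`, with `N(ℚ(ω)) = N(ℚ(ζ₉)) = 3` and
`N(ℚ(ω, ∛2)) = 6`, such that for the class `Tow N` of number fields (the smallest class which contains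
`ℚ(ω)`, `ℚ(ζ₉)`, `ℚ(ω, ∛2)` and all `K ∋ ω` with `L(E/K, 1) ≠ 0`, and contains with a field `F'` all
Galois extensions `K` of `F'` of degree a power of a prime number `p ∤ N(F')` which is silent in
`K/F'`, that is: a ramified prime of `K` is above three, or it is not above `p` and `p` does not divide
the number of points of `y² + y = x³` over the residue field of the prime of `F'` below it):

1. Deligne's conjecture holds at the critical point `1`, with an invertible `L`-value, for the motives
`H¹(E) ⊗ ρ` of all representations `ρ` of `Gal(K/ℚ)`, for all `K` in the class which are Galois over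
`ℚ`, with coefficients in any number field `E₀`. The Euler factor at three is `P(3^(-s))⁻¹`, for any
polynomial `P` over `E₀` with `P(0) ≠ 0` and `P(1/3) ≠ 0`.

2. There are infinitely many surjective homomorphisms from the absolute Galois group of `ℚ` to
`SL₂(𝔽₃)` which factor over `Gal(K/ℚ)` for some `K` in the class, Galois over `ℚ`. (With the
two-dimensional faithful representation of `SL₂(𝔽₃)` over `ℚ(i)` these are tetrahedral Galois
representations `ρ` of determinant one, so they are even, and not monomial.) -/
theorem result : ∃ N : ∀ (K : Type) [Field K] [NumberField K], ℕ,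
    (∀ (K : Type) [Field K] [NumberField K], N K ≠ 0) ∧
    (∀ (K : Type) [Field K] [NumberField K], IsQuad K → N K = 3) ∧
    (∀ (K : Type) [Field K] [NumberField K], IsCub K → N K = 6) ∧
    (∀ (K : Type) [Field K] [NumberField K], IsNine K → N K = 3) ∧
    (∀ T : Layer, Tow N T.K → ∀ (cx : ComplexPlace) (pl : ∀ p : Nat.Primes, Place p)
      (E₀ : Type) [Field E₀] [NumberField E₀] (n : ℕ) (ρ : T.G →* Matrix (Fin n) (Fin n) E₀)
      (P : E₀[X]), P.eval 0 ≠ 0 → P.eval 3⁻¹ ≠ 0 →
      (ellMotive cx T pl ρ P).DeligneUnit 1) ∧
    {φ : GalQ →* Matrix.SpecialLinearGroup (Fin 2) (ZMod 3) | Function.Surjective φ ∧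
      ∃ T : Layer, Tow N T.K ∧ ∀ σ, T.res σ = 1 → φ σ = 1}.Infinite :=
  D2L.mainT

end Pool.Agent.Results.MP_cd171c_nt.EllipticArtin
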