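import Pool.Agent.D2R.MainN

/-!
# Deligne's period conjecture for the Artin twists of the Hecke character of `y² = x³ + 16`

`F = ℚ(ω)`, `z = ω`; `ψ` is the Hecke character of `E₁ : y² = x³ + 16` over `F`, `M(ψ) = H¹(E₁/F)` is a motive
over `F` of rank one with coefficients in `F`.

* `heckeMotive r _ _ κ ψ A P` (`D2R/Mot.lean`, `D2R/Real.lean`, `D2R/Space.lean`): the Betti and de Rham
  realisations of `M = Res_{F/ℚ} (M(ψ) ⊗ r)` for a representation `r : Gal(L/F) → GL_n(E)`, where `E` is
  a number field containing `F`, and an embedding `κ` of `L`; with the Euler polynomials of its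
  `L`-function at the primes `p ≠ 3` and the Euler polynomial `P` at `3`. The statement is for all `P`
  with `P(0) ≠ 0`, `P(1/3) ≠ 0`; the true Euler polynomial at `3` has this property.
* `IsPsi ψ`: `ψ(P)` is the generator of `P` which is `1` modulo `3`, for the primes `P` not above `3`.
  `FrobAt L P`: a prime of `L` above `P` and a Frobenius element.
* `M.DeligneUnit s₀` (`D2M/Defs.lean`): `α^+` of `M(s₀)` is bijective, the value `L(M, s₀)` of the
  meromorphically continued Euler product exists and is a unit of `E ⊗ ℂ`, and it lies in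
  `c^+(M, s₀) E`.
* `Tow N` (`D2L/TowDef.lean`): the smallest class of number fields which contains `ℚ(ω)`, `ℚ(ω, ∛2)`,
  `ℚ(ζ₉)` and all `K ∋ ω` with `L(E₁/K, 1) ≠ 0`, and with `F'` all Galois extensions of `F'` of degree a
  power of a prime number not dividing `N(F')` which is silent in the extension.
* `IndDatum N F L E` (`D2R/SpanDef.lean`): a representation of `Gal(K/k)` for fields `F ⊆ k ⊆ K ⊆ L` with
  `K / k` Galois and `K` in the class `Tow N`. `indTrace` (`D2R/IndDef.lean`): the character of the induced
  representation of `Gal(L/F)`.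
-/

namespace Pool.Agent.Results.MP_cd171c_nt.HeckeArtin

open NumberField Polynomial IsDedekindDomain D2L D2R Pool.Agent.DeligneH3 Pool.Agent.D2M

/-- There are positive integers `N(K)`, for all number fields `K`, with `N(ℚ(ω)) = 3`,
`N(ℚ(ω, ∛2)) = 6` and `N(ℚ(ζ₉)) = 3`, such that Deligne's formula holds for `Res_{F/ℚ} (M(ψ) ⊗ r)` at `1`, with
an invertible `L`-value, for all finite Galois extensions `L / F`, all number fields `E` containing `F`
and all representations `r : Gal(L/F) → GL_n(E)` whose character is an integral combination of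
characters induced from representations of `Gal(K/k)`, `F ⊆ k ⊆ K ⊆ L`, `K / k` Galois, `K` in the class
`Tow N`; in particular for all representations of `Gal(L/F)` if `L` is in the class. -/
theorem result : ∃ N : ∀ (K : Type) [Field K] [NumberField K], ℕ,
    (∀ (K : Type) [Field K] [NumberField K], N K ≠ 0) ∧
    (∀ (K : Type) [Field K] [NumberField K], IsQuad K → N K = 3) ∧
    (∀ (K : Type) [Field K] [NumberField K], IsCub K → N K = 6) ∧
    (∀ (K : Type) [Field K] [NumberField K], IsNine K → N K = 3) ∧
    ∀ (F L : Type) [Field F] [NumberField F] [Field L] [NumberField L] [Algebra F L]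
      [IsGalois F L] (hF : Module.finrank ℚ F = 2) (z : F) (hz : z ^ 2 + z + 1 = 0)
      (κ : L →+* ℂ) (ψ : HeightOneSpectrum (𝓞 F) → 𝓞 F), IsPsi ψ →
      ∀ (A : ∀ P : HeightOneSpectrum (𝓞 F), FrobAt L P) (E : Type) [Field E] [NumberField E]
      [Algebra F E] (t : ℕ) (d : Fin t → IndDatum N F L E) (a : Fin t → ℤ) (n : ℕ)
      (r : (L ≃ₐ[F] L) →* Matrix (Fin n) (Fin n) E),
      (∀ g, (r g).trace = ∑ i, (a i : E) * indTrace (d i).H (d i).rep g) →
      ∀ P : E[X], P.eval 0 ≠ 0 → P.eval 3⁻¹ ≠ 0 →
      (heckeMotive r hz hF κ ψ A P).DeligneUnit 1 :=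
  D2R.mainN

end Pool.Agent.Results.MP_cd171c_nt.HeckeArtin
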