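import Pool.Agent.HW.MainB

/-!
# Deligne's period conjecture for the Artin twists of the odd powers of the Hecke character of
`y² = x³ + 16`

`F = ℚ(ω)`, `z = ω`; `ψ` is the Hecke character of `E₁ : y² = x³ + 16` over `F`. The motive `M(ψ^k)` over `F`, of
rank one with coefficients in `F`, is the `k`-th tensor power over the coefficients of
`M(ψ) = H¹(E₁/F)`. For `k = 2 m + 1` the centre is `m + 1`.

* `D2K.heckeMotiveK r k _ _ κ ψ A P` (`D2K/Mot.lean`, `D2K/Real.lean`, `D2R/Mot.lean`, `D2R/Space.lean`): the
  Betti and de Rham realisations of `M = Res_{F/ℚ} (M(ψ^k) ⊗ r)` for a representation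
  `r : Gal(L/F) → GL_n(E)`, where `E` is a number field containing `F`, and an embedding `κ` of `L`; with the
  Euler polynomials of its `L`-function at the primes `p ≠ 3` and the Euler polynomial `P` at `3`. The
  statement is for all `P` with `P(0) ≠ 0`, `P(3^{-m-1}) ≠ 0`; the true Euler polynomial at `3` has this
  property.
* `IsPsi ψ`: `ψ(P)` is the generator of `P` which is `1` modulo `3`, for the primes `P` not above `3`.
  `FrobAt L P`: a prime of `L` above `P` and a Frobenius element.
* `M.DeligneUnit s₀` (`D2M/Defs.lean`): `α^+` of `M(s₀)` is bijective, the value `L(M, s₀)` of the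
  meromorphically continued Euler product exists and is a unit of `E ⊗ ℂ`, and it lies in
  `c^+(M, s₀) E`.
* `HW.TowB F m N` (`HW/TowBDef.lean`): the smallest class of finite extensions of `F` which contains `F`
  if `m ≡ 0, 1, 3` modulo `6`, all `K` with `L(ψ_K^{2m+1}, m+1) ≠ 0`, `ψ_K` being the composite of `ψ` with the
  norm, and with `F'` all Galois extensions of `F'` of degree a power of a prime number not dividing
  `N(F')` which is silent in the extension.
* `HW.IndDatumB F m N L E`: a representation of `Gal(K/k)` for fields `F ⊆ k ⊆ K ⊆ L` with `K / k` Galois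
  and `K` in the class `TowB F m N`. `indTrace` (`D2R/IndDef.lean`): the character of the induced
  representation of `Gal(L/F)`.
* `HW.valPoly` (`HW/ValPoly.lean`): the integral polynomials `P_0 = 1`, `P_1 = X - 3`,
  `P_{n+2} = (2n+3)(X-3) P_{n+1} - 3(X-9)(X-1) P_{n+1}' - 4(n+1)² X P_n`.
-/

namespace Pool.Agent.Results.MP_cd171c_nt.HigherWeights

open NumberField Polynomial IsDedekindDomain D2R

/-- Let `m` be a natural number. There are positive integers `N(K)`, for all finite extensions `K` of
`F = ℚ(ω)`, with `N(F) = 6 |P_m(0)|`, not divisible by `7`, if `m ≡ 0, 1, 3` modulo `6`, such that Deligne's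
formula holds for `Res_{F/ℚ} (M(ψ^{2m+1}) ⊗ r)` at `m + 1`, with an invertible `L`-value, for all finite Galois
extensions `L / F`, all number fields `E` containing `F` and all representations
`r : Gal(L/F) → GL_n(E)` whose character is an integral combination of characters induced from
representations of `Gal(K/k)`, `F ⊆ k ⊆ K ⊆ L`, `K / k` Galois, `K` in the class `TowB F m N`; in particular
for all representations of `Gal(L/F)` if `L` is in the class. -/
theorem result (m : ℕ) :
    ∃ N : ∀ (F K : Type) [Field F] [NumberField F] [Field K] [NumberField K] [Algebra F K], ℕ,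
    (∀ (F K : Type) [Field F] [NumberField F] [Field K] [NumberField K] [Algebra F K],
      N F K ≠ 0) ∧
    (∀ (F K : Type) [Field F] [NumberField F] [Field K] [NumberField K] [Algebra F K],
      Module.finrank F K = 1 → (m % 6 = 0 ∨ m % 6 = 1 ∨ m % 6 = 3) →
      N F K = 6 * ((HW.valPoly m).eval 0).natAbs ∧ ¬ 7 ∣ N F K) ∧
    ∀ (F L : Type) [Field F] [NumberField F] [Field L] [NumberField L] [Algebra F L]
      [IsGalois F L] (hF : Module.finrank ℚ F = 2) (z : F) (hz : z ^ 2 + z + 1 = 0)
      (κ : L →+* ℂ) (ψ : HeightOneSpectrum (𝓞 F) → 𝓞 F), IsPsi ψ →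
      ∀ (A : ∀ P : HeightOneSpectrum (𝓞 F), FrobAt L P) (E : Type) [Field E] [NumberField E]
      [Algebra F E] (t : ℕ) (d : Fin t → HW.IndDatumB F m (fun K _ _ _ => N F K) L E)
      (a : Fin t → ℤ) (n : ℕ) (r : (L ≃ₐ[F] L) →* Matrix (Fin n) (Fin n) E),
      (∀ g, (r g).trace = ∑ i, (a i : E) * indTrace (d i).H (d i).rep g) →
      ∀ P : E[X], P.eval 0 ≠ 0 → P.eval (3⁻¹ ^ (m + 1)) ≠ 0 →
      (D2K.heckeMotiveK r (2 * m + 1) hz hF κ ψ A P).DeligneUnit (m + 1) :=
  HW.mainB m

end Pool.Agent.Results.MP_cd171c_nt.HigherWeights
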