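import Pool.Agent.TW18.MainX
import Pool.Agent.TW18.DensMain
import Pool.Agent.TW18.StmtB

/-!
# Deligne's period conjecture for the Artin twists of all Hecke characters of odd weight of `ℚ(ω)`

`F = ℚ(ω)`, `z = ω`; `ψ` is the Hecke character of `y² = x³ + 16` over `F`. A Hecke character of `F` of the weight
`k = 2 m + 1` is `φ = ψ^k χ⁻¹` for a character `χ : Gal(L₀/F) → E₀ˣ`, `L₀ / F` finite and Galois; the character of
the curve `y² = x³ + c` is `ψ χ⁻¹` with `χ(g) = g(u) / u`, `u⁶ = 4 c`.

* `D2K.heckeMotiveK r k _ _ κ ψ A P` (`D2K/Mot.lean`, `D2K/Real.lean`, `D2R/Mot.lean`, `D2R/Space.lean`): the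
  Betti and de Rham realisations of `M = Res_{F/ℚ} (M(ψ^k) ⊗ r)` for a representation
  `r : Gal(L/F) → GL_n(E)`, where `E` is a number field containing `F`, and an embedding `κ` of `L`; with the
  Euler polynomials of its `L`-function at the primes `p ≠ 3` and the Euler polynomial `P` at `3`. The
  statement is for all `P` with `P(0) ≠ 0`, `P(3^{-m-1}) ≠ 0`; the true Euler polynomial at `3` has this
  property. If `r = χ ⊗ s`, then `M = Res_{F/ℚ} (M(φ) ⊗ s)`.
* `IsPsi ψ`: `ψ(P)` is the generator of `P` which is `1` modulo `3`, for the primes `P` not above `3`.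
  `FrobAt L P`: a prime of `L` above `P` and a Frobenius element.
* `M.DeligneUnit s₀` (`D2M/Defs.lean`): `α^+` of `M(s₀)` is bijective, the value `L(M, s₀)` of the
  meromorphically continued Euler product exists and is a unit of `E ⊗ ℂ`, and it lies in
  `c^+(M, s₀) E`.
* `TW18.NonVanX χ A₀ ψ m K` (`TW18/Stmt.lean`): `L(φ_K, m + 1) ≠ 0`, for all embeddings of `E₀`, where `φ_K` is the
  composite of `φ` with the norm.
* `TW18.IndDatumX χ A₀ ψ m N L E` (`TW18/Stmt.lean`): a representation of `Gal(K/k)` for fields `F ⊆ k ⊆ K ⊆ L`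
  with `K / k` Galois and `K` in the class `TowX χ A₀ ψ m N`: the smallest class of finite extensions of
  `F` which contains all `K` with `L(φ_K, m + 1) ≠ 0`, and with `F'` all Galois extensions of `F'` of degree a
  power of a prime number not dividing `N(F')` which is silent in the extension.
* `TW18.NVTwist F c` (`TW18/Stmt.lean`): `L(φ, 1) ≠ 0` for the Hecke character `φ` of `y² = x³ + c` over `F`, that is
  `NonVanX χ A₀ ψ 0 F` for all `L₀ ∋ u`.
* `TW18.AtLeast S R d`: the elements with the property `R` have lower Dirichlet density at least `d` in `S`.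
-/

namespace Pool.Agent.Results.MP_cd171c_nt.TwistFamilies

open NumberField Polynomial IsDedekindDomain D2R

/-- For all nontrivial characters `χ` of `Gal(L₀/F)`, `F = ℚ(ω)`, all `m` and `φ = ψ^{2m+1} χ⁻¹` there are positive
integers `N(K)`, for all finite extensions `K` of `F`, such that Deligne's formula holds for
`Res_{F/ℚ} (M(φ) ⊗ s)` at the centre `m + 1`, with an invertible `L`-value, for all `L ⊇ L₀` and all (virtual)
representations `s` of `Gal(L/F)` which are integral combinations of representations induced from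
`Gal(K/k)`, `F ⊆ k ⊆ K ⊆ L`, `K / k` Galois, `K` in the class `TowX χ A₀ ψ m N`. This class contains `F`, as
`L(φ, m + 1) ≠ 0`, for `m = 0` and the Hecke character `φ` of `y² = x³ + c` over `F`, for at least four ninths of
the `c = β³`, `β` squarefree in `ℤ[ω]`, and for at least five ninths of the `c = 16 a²`, `a` cube-free and prime
to three. -/
theorem result :
    (∀ (m : ℕ) (F L₀ : Type) [Field F] [NumberField F] [Field L₀] [NumberField L₀]
      [Algebra F L₀] [IsGalois F L₀] (hF : Module.finrank ℚ F = 2) (z : F)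
      (hz : z ^ 2 + z + 1 = 0) (E₀ : Type) [Field E₀] [NumberField E₀] [Algebra F E₀]
      (χ : (L₀ ≃ₐ[F] L₀) →* E₀) (A₀ : ∀ P : HeightOneSpectrum (𝓞 F), FrobAt L₀ P)
      (ψ : HeightOneSpectrum (𝓞 F) → 𝓞 F), IsPsi ψ → (∃ g, χ g ≠ 1) →
      ∃ N : ∀ (K : Type) [Field K] [NumberField K] [Algebra F K], ℕ,
      (∀ (K : Type) [Field K] [NumberField K] [Algebra F K], N K ≠ 0) ∧
      TW18.CentreFormula m hF hz χ A₀ ψ N) ∧
    ∀ (F : Type) [Field F] [NumberField F], Module.finrank ℚ F = 2 →
      (∃ z : F, z ^ 2 + z + 1 = 0) →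
      TW18.AtLeast {β : 𝓞 F | Squarefree β} (fun β => TW18.NVTwist F (β ^ 3)) (4 / 9) ∧
      TW18.AtLeast {a : 𝓞 F | (∀ x : 𝓞 F, x ^ 3 ∣ a → IsUnit x) ∧ IsCoprime a 3}
        (fun a => TW18.NVTwist F (16 * a ^ 2)) (5 / 9) :=
  ⟨fun m _ _ _ _ _ _ _ _ hF z hz _ _ _ _ χ A₀ ψ hψ _ => TW18.mainX m hF z hz χ A₀ ψ hψ,
    fun F _ _ hF ⟨_, hz⟩ => ⟨TW18.densQ F hF hz, TW18.densC F hF hz⟩⟩

end Pool.Agent.Results.MP_cd171c_nt.TwistFamilies
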